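import Pool.Agent.H31.DSF

namespace Pool.Agent.Results.MP_b4d381_co.InfiniteMin

open Pool.Agent.H31.DSF

theorem up {G H K : Gr} (h : Induces H K) (hK : InP G K) : InP G H := by
  obtain ⟨ψ⟩ := h
  obtain ⟨K', hd, ⟨φ⟩⟩ := hK
  obtain ⟨e, he⟩ := exists_equiv hd
  let K2 : SimpleGraph (Fin K.1) := K'.2.comap e.symm
  have hK2 : ∀ a, (K2.neighborSet a).ncard = (K.2.neighborSet a).ncard := fun a => by
    rw [deg_comap, ← he]; simp
  let H2 : SimpleGraph (Fin H.1) :=
    { Adj := fun x y => (∃ a b, ψ a = x ∧ ψ b = y ∧ K2.Adj a b) ∨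
        (¬ (x ∈ Set.range ψ ∧ y ∈ Set.range ψ) ∧ H.2.Adj x y)
      symm := ⟨by
        rintro x y (⟨a, b, h1, h2, h3⟩ | ⟨h1, h2⟩)
        · exact Or.inl ⟨b, a, h2, h1, h3.symm⟩
        · exact Or.inr ⟨fun h => h1 h.symm, h2.symm⟩⟩
      loopless := ⟨by
        rintro x (⟨a, b, h1, h2, h3⟩ | ⟨_, h2⟩)
        · exact h3.ne (ψ.injective (h1.trans h2.symm))
        · exact h2.ne rfl⟩ }
  have hA : ∀ a b, H2.Adj (ψ a) (ψ b) ↔ K2.Adj a b := by
    intro a b
    constructor
    · rintro (⟨c, d, h1, h2, h3⟩ | ⟨h1, _⟩)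
      · rwa [← ψ.injective h1, ← ψ.injective h2]
      · exact absurd ⟨⟨a, rfl⟩, ⟨b, rfl⟩⟩ h1
    · exact fun h => Or.inl ⟨a, b, rfl, rfl, h⟩
  refine ⟨⟨H.1, H2⟩, degSeq_eq (Equiv.refl _) fun x => ?_, ⟨⟨⟨fun g => ψ (e (φ g)),
    ψ.injective.comp (e.injective.comp φ.injective)⟩, fun {a b} => ?_⟩⟩⟩
  · show (H.2.neighborSet x).ncard = (H2.neighborSet x).ncard
    by_cases hx : x ∈ Set.range ψ
    · obtain ⟨a, rfl⟩ := hx
      have e1 : H.2.neighborSet (ψ a) =
          ψ '' K.2.neighborSet a ∪ (H.2.neighborSet (ψ a) \ Set.range ψ) := by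
        ext y
        by_cases hy : y ∈ Set.range ψ
        · obtain ⟨b, rfl⟩ := hy
          simp [ψ.injective.eq_iff]
        · have : y ∉ ψ '' K.2.neighborSet a := fun h => hy (Set.image_subset_range _ _ h)
          simp only [Set.mem_union, this, Set.mem_diff, hy, false_or, not_false_iff, and_true]
      have e2 : H2.neighborSet (ψ a) =
          ψ '' K2.neighborSet a ∪ (H.2.neighborSet (ψ a) \ Set.range ψ) := by
        ext y
        by_cases hy : y ∈ Set.range ψ
        · obtain ⟨b, rfl⟩ := hy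
          rw [SimpleGraph.mem_neighborSet, hA]
          simp [ψ.injective.eq_iff]
        · have : y ∉ ψ '' K2.neighborSet a := fun h => hy (Set.image_subset_range _ _ h)
          simp only [Set.mem_union, this, Set.mem_diff, hy, false_or, not_false_iff, and_true,
            SimpleGraph.mem_neighborSet]
          constructor
          · rintro (⟨c, d, h1, h2, h3⟩ | ⟨h1, h2⟩)
            · exact absurd ⟨d, h2⟩ hy
            · exact h2
          · exact fun h => Or.inr ⟨fun h' => hy h'.2, h⟩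
      have dj : ∀ s t : Set _, Disjoint (ψ '' s) (t \ Set.range ψ) := fun s t =>
        Set.disjoint_left.2 fun y h1 h2 => h2.2 (Set.image_subset_range _ _ h1)
      rw [e2, Set.ncard_union_eq (dj _ _), Set.ncard_image_of_injective _ ψ.injective, hK2,
        ← Set.ncard_image_of_injective _ ψ.injective, ← Set.ncard_union_eq (dj _ _), ← e1]
    · congr 1
      ext y
      simp only [SimpleGraph.mem_neighborSet]
      constructor
      · exact fun h => Or.inr ⟨fun h' => hx h'.1, h⟩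
      · rintro (⟨c, d, h1, h2, h3⟩ | ⟨h1, h2⟩)
        · exact absurd ⟨c, h1⟩ hx
        · exact h2
  · show H2.Adj (ψ (e (φ a))) (ψ (e (φ b))) ↔ _
    rw [hA]
    simp [K2]

theorem ind_of_cl {A B : Gr} (h : cl A = cl B) : Induces A B := by
  obtain ⟨e⟩ := Quotient.exact h
  exact ⟨e.symm.toEmbedding⟩

theorem cl_of_le {A B : Gr} (h : Induces A B) (hs : A.1 ≤ B.1) : cl B = cl A := by
  obtain ⟨f⟩ := h
  have h1 := Fintype.card_le_of_injective f f.injective
  have : Function.Bijective f := (Fintype.bijective_iff_injective_and_card f).2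
    ⟨f.injective, by simp only [Fintype.card_fin] at h1 ⊢; omega⟩
  exact Quotient.sound ⟨RelIso.ofSurjective f this.2⟩

theorem inD {G A : Gr} (h : cl A ∈ D G) : InD G A := by
  obtain ⟨B, e, h1, h2⟩ := h
  refine ⟨up (ind_of_cl e.symm) h1, fun K a b => h2 K (by rw [size_eq e]; exact a) ?_⟩
  exact (ind_of_cl e).trans b

theorem free_iff (G H : Gr) : Free (D G) H ↔ ¬ InP G H := by
  constructor
  · intro h hp
    obtain ⟨K, h1, h2⟩ := exists_D G _ H (Nat.lt_succ_self _) hp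
    exact h K ⟨K, rfl, h2⟩ h1
  · exact fun h K hK hi => h (up hi (inD hK).1)

theorem minD (G : Gr) (hne : (D G).Nonempty) : IsMinDSF (D G) := by
  refine ⟨⟨hne, fun H H' e => ?_⟩, fun F hF hD => ?_⟩
  · rw [free_iff, free_iff]
    exact fun h ⟨K, a, b⟩ => h ⟨K, a.trans e.symm, b⟩
  have key : ∀ A A' : Gr, degSeq A' = degSeq A → ¬ Free F A' → ∃ B, cl B ∈ F ∧ Induces A B := by
    intro A A' e h
    by_contra hc
    exact h (hD.2 A A' e.symm fun B a b => hc ⟨B, a, b⟩)
  have hG : cl G ∈ F := by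
    obtain ⟨c, hc⟩ := hD.1
    have hex : ∃ m, ∃ A : Gr, cl A ∈ F ∧ A.1 = m :=
      ⟨_, Quotient.out c, by rwa [cl, Quotient.out_eq], rfl⟩
    classical
    obtain ⟨A, hA, hm⟩ := Nat.find_spec hex
    obtain ⟨A', e, hi⟩ := (inD (hF.1 hA)).1
    obtain ⟨B, hB, hb⟩ := key A' A e.symm (fun h => h A hA ⟨SimpleGraph.Embedding.refl⟩)
    have h1 := Nat.find_min' hex ⟨B, hB, rfl⟩
    obtain ⟨q, -⟩ := exists_equiv e
    have h2 : A'.1 = A.1 := by simpa using Fintype.card_congr q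
    have h3 := cl_of_le hb (by omega)
    have h4 : Induces B G := (ind_of_cl h3).trans hi
    have h5 := (inD (hF.1 hB)).2 G
    have h6 : B.1 ≤ G.1 := by
      by_contra h
      exact h5 (by omega) h4 ⟨G, rfl, ⟨SimpleGraph.Embedding.refl⟩⟩
    rwa [cl_of_le h4 h6]
  obtain ⟨c, hc, hn⟩ := Set.exists_of_ssubset hF
  obtain ⟨A, rfl, ⟨A', e, hi⟩, h2⟩ := hc
  obtain ⟨B, hB, hb⟩ := key A A' e (fun h => h G hG hi)
  have h6 : A.1 ≤ B.1 := by
    by_contra h
    exact h2 B (by omega) hb (inD (hF.1 hB)).1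
  exact hn (cl_of_le hb h6 ▸ hB)

theorem result : ∃ F : Set Cl, IsMinDSF F ∧ F.Infinite :=
  ⟨_, minD _ infinite_D.nonempty, infinite_D⟩

end Pool.Agent.Results.MP_b4d381_co.InfiniteMin
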